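import Mathlib
import Pool.Agent.H82.Aont

set_option autoImplicit false

/-!
# Symmetric linear `(2, p, p)`-all-or-nothing transforms in standard form

For a prime `p > 5` there is none.  The combinatorial core is in `Pool.Agent.H82.Aont`:
a nonzero last diagonal entry is excluded by a parity count of missing row values, and in the
zero diagonal case all rows of a rescaled array contain the same multiset of values, which would
give a negacyclic sign sequence of length `(p - 1) / 2 > 2` with vanishing correlations.
-/

namespace Pool.Agent.Results.MP_e1f2d0_co.NoSymmetricStandard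

open Pool.Agent.H82.Aont

/-- `M` is a linear `(t, s, q)`-AONT over the field `F` of order `q`: `M` is invertible and every
`t × t` submatrix (a choice of `t` rows and of `t` columns) is invertible. -/
def IsLinearAONT {F : Type*} [Field F] (t s : ℕ) (M : Matrix (Fin s) (Fin s) F) : Prop :=
  IsUnit M ∧ ∀ r c : Fin t ↪o Fin s, IsUnit (M.submatrix r c)

/-- Standard form for a `p × p` matrix (rows and columns are numbered from `0` here): the diagonal
entries are zero, except possibly the last one, and all other entries of the first row and of the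
first column are equal to one. -/
def IsStandardForm {F : Type*} [Field F] {p : ℕ} (M : Matrix (Fin p) (Fin p) F) : Prop :=
  (∀ i : Fin p, i.val + 1 < p → M i i = 0) ∧
    ∀ i j : Fin p, i.val = 0 → j.val ≠ 0 → M i j = 1 ∧ M j i = 1

/-- For a prime `p > 5` no symmetric `p × p` matrix over `ZMod p` in standard form is a linear
`(2, p, p)`-AONT. -/
theorem result (p : ℕ) [Fact p.Prime] (hp : 5 < p) (M : Matrix (Fin p) (Fin p) (ZMod p))
    (hsymm : M.IsSymm) (hstd : IsStandardForm M) : ¬ IsLinearAONT 2 p M := by
  rintro ⟨-, hsub⟩
  have hs : ∀ i j, M i j = M j i := fun i j => by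
    have := congrFun (congrFun hsymm i) j
    rw [Matrix.transpose_apply] at this
    exact this.symm
  have hmin0 : ∀ i i' j j' : Fin p, i < i' → j < j' → M i j * M i' j' ≠ M i j' * M i' j := by
    intro i i' j j' hi hj h
    have hr : StrictMono ![i, i'] := by
      intro a b hab
      fin_cases a <;> fin_cases b <;> simp_all
    have hc : StrictMono ![j, j'] := by
      intro a b hab
      fin_cases a <;> fin_cases b <;> simp_all
    have h1 := hsub (OrderEmbedding.ofStrictMono _ hr) (OrderEmbedding.ofStrictMono _ hc)
    rw [Matrix.isUnit_iff_isUnit_det, Matrix.det_fin_two] at h1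
    simp only [Matrix.submatrix_apply, OrderEmbedding.coe_ofStrictMono, Matrix.cons_val_zero,
      Matrix.cons_val_one] at h1
    rw [h, sub_self] at h1
    exact not_isUnit_zero h1
  have hmin : ∀ i i' j j' : Fin p, i ≠ i' → j ≠ j' → M i j * M i' j' ≠ M i j' * M i' j := by
    intro i i' j j' hi hj h
    rcases lt_or_gt_of_ne hi with hi | hi <;> rcases lt_or_gt_of_ne hj with hj | hj
    · exact hmin0 i i' j j' hi hj h
    · exact hmin0 i i' j' j hi hj h.symm
    · exact hmin0 i' i j j' hi hj (by rw [mul_comm, ← h, mul_comm])
    · exact hmin0 i' i j' j hi hj (by rw [mul_comm, h, mul_comm])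
  have hp0 : 0 < p := by omega
  set o : Fin p := ⟨0, hp0⟩ with ho
  set w : Fin p := ⟨p - 1, by omega⟩ with hw
  have how : o ≠ w := by
    intro h
    have := congrArg Fin.val h
    simp only [ho, hw] at this
    omega
  have hdiag : ∀ i, i ≠ w → M i i = 0 := by
    intro i hi
    apply hstd.1
    have h1 : i.val ≠ p - 1 := fun h => hi (Fin.ext h)
    have := i.isLt
    omega
  have hone : ∀ j, j ≠ o → M o j = 1 := by
    intro j hj
    exact (hstd.2 o j rfl (fun h => hj (Fin.ext h))).1
  have hoff' : ∀ i j, i ≠ w → i ≠ j → M i j ≠ 0 := by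
    intro i j hi hij h
    -- another row
    obtain ⟨l, hl⟩ : ∃ l : Fin p, l ≠ i := ⟨if i = o then w else o, by
      split_ifs with h'
      · rw [h']; exact how.symm
      · exact Ne.symm h'⟩
    apply hmin i l i j hl.symm hij
    rw [hdiag i hi, h, zero_mul, zero_mul]
  have hoff : ∀ i j, i ≠ j → M i j ≠ 0 := by
    intro i j hij
    by_cases hi : i = w
    · rw [hs i j]
      exact hoff' j i (by rw [← hi]; exact hij.symm) hij.symm
    · exact hoff' i j hi hij
  have hcard : Fintype.card (Fin p) = Fintype.card (ZMod p) := by
    rw [Fintype.card_fin, ZMod.card]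
  have hcK : Fintype.card (ZMod p) = p := ZMod.card p
  by_cases hww : M w w = 0
  · apply no_zero_diagonal M hs hoff hmin hcard _ (by rw [hcK]; exact hp)
    intro h
    have h1 := congrArg (fun u : (ZMod p)ˣ => (u : ZMod p)) h
    simp only [Units.val_one, Units.val_neg] at h1
    have h2 : ((2 : ℕ) : ZMod p) = 0 := by
      have : (1 : ZMod p) + 1 = 0 := by
        nth_rewrite 2 [h1]; ring
      push_cast
      rw [← this]; norm_num
    rw [ZMod.natCast_eq_zero_iff] at h2
    have := Nat.le_of_dvd (by norm_num) h2
    omega
  · have hodd : Odd p := (Fact.out : p.Prime).odd_of_ne_two (by omega)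
    exact no_nonzero_corner M hs o w how hone hww hoff hmin hcard
      (by rw [hcK]; omega) (by rw [hcK]; exact hodd)

end Pool.Agent.Results.MP_e1f2d0_co.NoSymmetricStandard
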